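import Mathlib
import Pool.Agent.H866Z.DRefDefs
import Pool.Agent.H866Z.DRefProof

set_option autoImplicit false

namespace Pool.Agent.Results.MP_c8df5e_gt.AProducts

open Pool.Agent.H866Z.DRef

universe u

/-- The `d`-reflection preserves arbitrary products of `T0` spaces: the product of
`d`-reflections `μ i : X i → Xd i` is a `d`-reflection of the product space, and every
`d`-reflection of the product space is homeomorphic to the product of the `Xd i`. -/
theorem result {I : Type u} (X Xd : I → Type u) [∀ i, TopologicalSpace (X i)]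
    [∀ i, TopologicalSpace (Xd i)] [∀ i, T0Space (X i)] (μ : ∀ i, X i → Xd i)
    (hμ : ∀ i, IsDReflection (μ i)) :
    IsDReflection (fun (x : ∀ i, X i) (i : I) => μ i (x i)) ∧
      ∀ (Z : Type u) [TopologicalSpace Z] (ν : (∀ i, X i) → Z), IsDReflection ν →
        Nonempty (Z ≃ₜ ∀ i, Xd i) :=
  ⟨pi_isDReflection hμ, fun _ _ _ hν =>
    let ⟨e, _⟩ := (pi_isDReflection hμ).homeo hν
    ⟨e⟩⟩

end Pool.Agent.Results.MP_c8df5e_gt.AProducts
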